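import Pool.Agent.H242.GX.Stm

/-!
GX-PRE: make the function exactly even on the tangent line number `0`.
-/

set_option autoImplicit false
set_option linter.unusedVariables false

open Set Filter Topology
open scoped ContDiff

namespace Pool.Agent.H747.GXPRE

open Pool.Agent.H242.GX

/-- Functions which are flat at `0`. -/
def Fl (q : ℝ → ℝ) : Prop := ∀ N : ℕ, ∃ e : ℝ → ℝ, ContDiff ℝ ∞ e ∧ ∀ x, q x = x ^ N * e x

/-- Smooth functions which are constant near `∞` and near `-∞`. -/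
structure Ct (ψ : ℝ → ℝ) : Prop where
  smooth : ContDiff ℝ ∞ ψ
  const : ∃ M : ℝ, 0 < M ∧ (∀ s, M ≤ s → ψ s = ψ M) ∧ ∀ s, s ≤ -M → ψ s = ψ (-M)

theorem Fl.smooth {q : ℝ → ℝ} (h : Fl q) : ContDiff ℝ ∞ q := by
  obtain ⟨e, he, hq⟩ := h 0
  have : q = e := by
    funext x
    rw [hq x, pow_zero, one_mul]
  rw [this]
  exact he

theorem Fl.deriv {q : ℝ → ℝ} (h : Fl q) : Fl (deriv q) := by
  intro N
  obtain ⟨e, he, hq⟩ := h (N + 1)
  have he' : ContDiff ℝ ∞ (_root_.deriv e) := (contDiff_infty_iff_deriv.mp he).2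
  refine ⟨fun x => (N + 1 : ℝ) * e x + x * _root_.deriv e x,
    (contDiff_const.mul he).add (contDiff_id.mul he'), ?_⟩
  intro x
  have h1 : HasDerivAt e (_root_.deriv e x) x :=
    ((contDiff_infty_iff_deriv.mp he).1 x).hasDerivAt
  have h2 := (hasDerivAt_pow (N + 1) x).mul h1
  have h3 : q = fun x => x ^ (N + 1) * e x := funext hq
  have h4 := h2.deriv
  rw [h3]
  show _root_.deriv ((fun x => x ^ (N + 1)) * e) x = _
  rw [h4, Nat.add_sub_cancel]
  push_cast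
  ring

theorem Fl.div {q : ℝ → ℝ} (h : Fl q) : ∃ q₁, Fl q₁ ∧ ∀ x, q x = x * q₁ x := by
  obtain ⟨e, he, hq⟩ := h 1
  refine ⟨e, ?_, fun x => by rw [hq x, pow_one]⟩
  intro N
  obtain ⟨e', he', hq'⟩ := h (N + 1)
  refine ⟨e', he', ?_⟩
  have h1 : e = fun x => x ^ N * e' x := by
    apply Continuous.ext_on (dense_compl_singleton (0 : ℝ)) he.continuous
      ((continuous_pow N).mul he'.continuous)
    intro x hx
    have hx0 : x ≠ 0 := hx
    have h2 := hq x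
    rw [hq' x, pow_one, pow_succ'] at h2
    have h3 : x * (e x - x ^ N * e' x) = 0 := by
      rw [mul_sub, ← h2]
      ring
    rcases mul_eq_zero.mp h3 with h4 | h4
    · exact absurd h4 hx0
    · exact sub_eq_zero.mp h4
  exact fun x => congrFun h1 x

theorem Ct.bdd {ψ : ℝ → ℝ} (h : Ct ψ) : ∃ B, 0 ≤ B ∧ ∀ s, |ψ s| ≤ B := by
  obtain ⟨M, hM, h1, h2⟩ := h.const
  obtain ⟨B, hB⟩ := (isCompact_Icc (a := -M) (b := M)).exists_bound_of_continuousOn
    (f := ψ) h.smooth.continuous.continuousOn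
  have hBM : |ψ M| ≤ B := hB M ⟨by linarith, le_rfl⟩
  have hBM' : |ψ (-M)| ≤ B := hB (-M) ⟨le_rfl, by linarith⟩
  refine ⟨B, (abs_nonneg _).trans hBM, ?_⟩
  intro s
  by_cases hs : M ≤ s
  · rw [h1 s hs]
    exact hBM
  · by_cases hs' : s ≤ -M
    · rw [h2 s hs']
      exact hBM'
    · exact hB s ⟨by linarith [not_le.mp hs'], by linarith [not_le.mp hs]⟩

theorem Ct.deriv_zero {ψ : ℝ → ℝ} (h : Ct ψ) : ∃ M : ℝ, 0 < M ∧ (∀ s, M ≤ s → deriv ψ s = 0) ∧
    ∀ s, s ≤ -M → deriv ψ s = 0 := by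
  obtain ⟨M, hM, h1, h2⟩ := h.const
  refine ⟨M + 1, by linarith, ?_, ?_⟩
  · intro s hs
    have h3 : ψ =ᶠ[𝓝 s] fun _ => ψ M := by
      filter_upwards [Ioi_mem_nhds (show M < s by linarith)] with u hu
      exact h1 u (le_of_lt hu)
    rw [h3.deriv_eq, deriv_const]
  · intro s hs
    have h3 : ψ =ᶠ[𝓝 s] fun _ => ψ (-M) := by
      filter_upwards [Iio_mem_nhds (show s < -M by linarith)] with u hu
      exact h2 u (le_of_lt hu)
    rw [h3.deriv_eq, deriv_const]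

theorem Ct.deriv {ψ : ℝ → ℝ} (h : Ct ψ) : Ct (deriv ψ) := by
  obtain ⟨M, hM, h1, h2⟩ := h.deriv_zero
  refine ⟨(contDiff_infty_iff_deriv.mp h.smooth).2, M, hM, ?_, ?_⟩
  · intro s hs
    rw [h1 s hs, h1 M le_rfl]
  · intro s hs
    rw [h2 s hs, h2 (-M) le_rfl]

theorem Ct.mul_deriv {ψ : ℝ → ℝ} (h : Ct ψ) : Ct (fun s => s * _root_.deriv ψ s) := by
  obtain ⟨M, hM, h1, h2⟩ := h.deriv_zero
  refine ⟨contDiff_id.mul (contDiff_infty_iff_deriv.mp h.smooth).2, M, hM, ?_, ?_⟩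
  · intro s hs
    simp only [h1 s hs, h1 M le_rfl, mul_zero]
  · intro s hs
    simp only [h2 s hs, h2 (-M) le_rfl, mul_zero]

/-- The product of a flat function of `φ` and a function of `y / φ ^ 2`. -/
noncomputable def FF (q ψ : ℝ → ℝ) (x : ℝ × ℝ) : ℝ :=
  if 0 < x.1 then q x.1 * ψ (x.2 / x.1 ^ 2) else 0

theorem FF_hasFDerivAt {q q₁ q₂ ψ : ℝ → ℝ} (hq : Fl q) (hq₁ : Fl q₁) (hq₂ : Fl q₂)
    (h1 : ∀ x, q x = x * q₁ x) (h2 : ∀ x, q₁ x = x * q₂ x) (hψ : Ct ψ) (x : ℝ × ℝ) :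
    HasFDerivAt (FF q ψ) ((FF (deriv q) ψ x - 2 * FF q₁ (fun s => s * deriv ψ s) x) •
      ContinuousLinearMap.fst ℝ ℝ ℝ + (FF q₂ (deriv ψ) x) • ContinuousLinearMap.snd ℝ ℝ ℝ) x := by
  by_cases hx : 0 < x.1
  · have e1 : HasFDerivAt (fun z : ℝ × ℝ => q z.1) (deriv q x.1 • ContinuousLinearMap.fst ℝ ℝ ℝ) x :=
      (((contDiff_infty_iff_deriv.mp hq.smooth).1 x.1).hasDerivAt).comp_hasFDerivAt x hasFDerivAt_fst
    have e2 : HasDerivAt (fun u : ℝ => (u ^ 2)⁻¹) (-(2 * x.1) / (x.1 ^ 2) ^ 2) x.1 := by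
      have h0 : HasDerivAt (fun u : ℝ => (u ^ 2)⁻¹)
          (-(((2 : ℕ) : ℝ) * x.1 ^ (2 - 1)) / (x.1 ^ 2) ^ 2) x.1 :=
        (hasDerivAt_pow 2 x.1).inv (pow_ne_zero 2 hx.ne')
      refine h0.congr_deriv ?_
      norm_num
    have e3 : HasFDerivAt (fun z : ℝ × ℝ => (z.1 ^ 2)⁻¹)
        ((-(2 * x.1) / (x.1 ^ 2) ^ 2) • ContinuousLinearMap.fst ℝ ℝ ℝ) x :=
      e2.comp_hasFDerivAt x hasFDerivAt_fst
    have e4 : HasFDerivAt (fun z : ℝ × ℝ => z.2 * (z.1 ^ 2)⁻¹) _ x :=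
      (hasFDerivAt_snd (𝕜 := ℝ) (E := ℝ) (F := ℝ) (p := x)).mul e3
    have e5 : HasFDerivAt (fun z : ℝ × ℝ => ψ (z.2 * (z.1 ^ 2)⁻¹)) _ x :=
      (((contDiff_infty_iff_deriv.mp hψ.smooth).1 (x.2 * (x.1 ^ 2)⁻¹)).hasDerivAt).comp_hasFDerivAt
        x e4
    have e6 := e1.mul e5
    have e7 : FF q ψ =ᶠ[𝓝 x] fun z : ℝ × ℝ => q z.1 * ψ (z.2 * (z.1 ^ 2)⁻¹) := by
      filter_upwards [(isOpen_lt continuous_const continuous_fst).mem_nhds hx] with z hz
      have hz' : 0 < z.1 := hz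
      simp only [FF, if_pos hz', div_eq_mul_inv]
    refine (e6.congr_of_eventuallyEq e7).congr_fderiv ?_
    simp only [FF, if_pos hx]
    ext
    · simp only [ContinuousLinearMap.comp_apply, ContinuousLinearMap.inl_apply,
        add_apply, smul_apply,
        ContinuousLinearMap.coe_fst', ContinuousLinearMap.coe_snd', smul_eq_mul]
      have h3 := h1 x.1
      rw [div_eq_mul_inv x.2]
      rw [h3]
      field_simp
      ring
    · simp only [ContinuousLinearMap.comp_apply, ContinuousLinearMap.inr_apply,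
        add_apply, smul_apply,
        ContinuousLinearMap.coe_fst', ContinuousLinearMap.coe_snd', smul_eq_mul]
      have h3 := h1 x.1
      have h4 := h2 x.1
      rw [div_eq_mul_inv x.2]
      rw [h3, h4]
      field_simp
      ring
  · have hz0 : (FF (deriv q) ψ x - 2 * FF q₁ (fun s => s * deriv ψ s) x) •
      ContinuousLinearMap.fst ℝ ℝ ℝ + (FF q₂ (deriv ψ) x) • ContinuousLinearMap.snd ℝ ℝ ℝ = 0 := by
      simp only [FF, if_neg hx, mul_zero, sub_zero, zero_smul, add_zero]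
    rw [hz0]
    obtain ⟨B, hB0, hB⟩ := hψ.bdd
    apply Asymptotics.IsBigO.hasFDerivAt (n := 2) _ (by norm_num)
    apply Asymptotics.IsBigO.of_bound ((|q₂ x.1| + 1) * B)
    have h3 : ∀ᶠ z : ℝ × ℝ in 𝓝 x, |q₂ z.1| < |q₂ x.1| + 1 := by
      have h4 : ContinuousAt (fun z : ℝ × ℝ => |q₂ z.1|) x :=
        ((hq₂.smooth.continuous.comp continuous_fst).abs).continuousAt
      exact h4.eventually (Iio_mem_nhds (by linarith : |q₂ x.1| < |q₂ x.1| + 1))
    filter_upwards [h3] with z hz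
    by_cases hz1 : 0 < z.1
    · simp only [FF, if_pos hz1]
      rw [h1 z.1, h2 z.1, Real.norm_eq_abs, abs_mul, abs_mul, abs_mul, norm_pow, norm_norm]
      have h5 : |z.1| ≤ ‖z - x‖ := by
        have h6 : |z.1 - x.1| ≤ ‖z - x‖ := norm_fst_le (z - x)
        rw [abs_of_pos hz1]
        have h7 := le_abs_self (z.1 - x.1)
        linarith [not_lt.mp hx]
      have h8 : |z.1| * |z.1| ≤ ‖z - x‖ ^ 2 := by
        rw [sq]
        exact mul_le_mul h5 h5 (abs_nonneg _) (norm_nonneg _)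
      have h9 : |q₂ z.1| * |ψ (z.2 / z.1 ^ 2)| ≤ (|q₂ x.1| + 1) * B :=
        mul_le_mul hz.le (hB _) (abs_nonneg _) (by positivity)
      calc |z.1| * (|z.1| * |q₂ z.1|) * |ψ (z.2 / z.1 ^ 2)|
          = (|q₂ z.1| * |ψ (z.2 / z.1 ^ 2)|) * (|z.1| * |z.1|) := by ring
        _ ≤ _ := mul_le_mul h9 h8 (by positivity) (by positivity)
    · simp only [FF, if_neg hz1, norm_zero]
      positivity

theorem FF_contDiff_nat (n : ℕ) : ∀ q ψ : ℝ → ℝ, Fl q → Ct ψ → ContDiff ℝ n (FF q ψ) := by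
  induction n with
  | zero =>
    intro q ψ hq hψ
    obtain ⟨q₁, hq₁, h1⟩ := hq.div
    obtain ⟨q₂, hq₂, h2⟩ := hq₁.div
    rw [Nat.cast_zero, contDiff_zero, continuous_iff_continuousAt]
    exact fun x => (FF_hasFDerivAt hq hq₁ hq₂ h1 h2 hψ x).continuousAt
  | succ n ih =>
    intro q ψ hq hψ
    obtain ⟨q₁, hq₁, h1⟩ := hq.div
    obtain ⟨q₂, hq₂, h2⟩ := hq₁.div
    push_cast
    rw [contDiff_succ_iff_hasFDerivAt]
    refine ⟨_, ?_, FF_hasFDerivAt hq hq₁ hq₂ h1 h2 hψ⟩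
    exact (((ih _ _ hq.deriv hψ).sub (contDiff_const.mul (ih _ _ hq₁ hψ.mul_deriv))).smul
      (contDiff_const (c := ContinuousLinearMap.fst ℝ ℝ ℝ))).add
      ((ih _ _ hq₂ hψ.deriv).smul (contDiff_const (c := ContinuousLinearMap.snd ℝ ℝ ℝ)))

theorem FF_contDiff {q ψ : ℝ → ℝ} (hq : Fl q) (hψ : Ct ψ) : ContDiff ℝ ∞ (FF q ψ) :=
  contDiff_infty.mpr (fun n => FF_contDiff_nat n q ψ hq hψ)

theorem Odd_neg (X : ℝ × ℝ → ℝ × ℝ) (H : ℝ × ℝ → ℝ) (θ t : ℝ) : Odd X H θ (-t) = - Odd X H θ t := by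
  simp only [Pool.Agent.H242.GX.Odd, neg_neg, neg_sub]

/-- The function `-O (T (φ))`, cut off, is flat at `0`. -/
theorem exists_flat (hLOC : S_LOC) (hHAD : S_HAD) (X Z : ℝ × ℝ → ℝ × ℝ) (hX : Web X Z)
    (H : ℝ × ℝ → ℝ) (hH : ContDiff ℝ ∞ H) (hF : Flat X H) :
    ∃ q : ℝ → ℝ, Fl q ∧ (∀ x, 1 ≤ x → q x = 0) ∧ ∃ r : ℝ, 0 < r ∧ ∀ t : ℝ, |t| < r →
      q (X (0, t)).1 = - Odd X H 0 t := by
  have hsm : ContDiff ℝ ∞ (fun x : ℝ × ℝ => (X (0, x.2)).1) :=
    (hX.smX.comp (contDiff_const.prodMk contDiff_snd)).fst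
  obtain ⟨ε, δ, g, hε, hδ, hg, -, -, h3, h4, -, -⟩ := hLOC (fun x : ℝ × ℝ => (X (0, x.2)).1) hsm
    (fun θ t => rfl) (fun θ => by simp only [hX.axis 0]) (fun θ => hX.der1 0)
  have h4 := h4 0
  -- cut off
  set ε' := min ε 1 with hε'
  have hε'0 : 0 < ε' := lt_min hε one_pos
  have hε'1 : ε' ≤ 1 := min_le_right _ _
  have hε'ε : ε' ≤ ε := min_le_left _ _
  let b : ContDiffBump (0 : ℝ) := ⟨ε' / 4, ε' / 2, by positivity, by linarith⟩
  have hb1 : ∀ x : ℝ, |x| ≤ ε' / 4 → b x = 1 := by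
    intro x hx
    apply b.one_of_mem_closedBall
    rw [mem_closedBall_zero_iff]
    exact hx
  have hb0 : ∀ x : ℝ, ε' / 2 ≤ |x| → b x = 0 := by
    intro x hx
    apply b.zero_of_le_dist
    rw [dist_zero_right]
    exact hx
  have hbs : ContDiff ℝ ∞ (fun x : ℝ => b x) := b.contDiff
  have hT : ContDiff ℝ ∞ (fun x : ℝ => b x * g (0, x)) := by
    rw [contDiff_iff_contDiffAt]
    intro x
    by_cases hx : |x| < ε
    · have h5 : ContDiffAt ℝ ∞ g (0, x) :=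
        (hg (0, x) hx).contDiffAt ((isOpen_lt continuous_snd.abs continuous_const).mem_nhds hx)
      exact hbs.contDiffAt.mul (h5.comp x (contDiff_const.prodMk contDiff_id).contDiffAt)
    · have h5 : (fun x : ℝ => b x * g (0, x)) =ᶠ[𝓝 x] fun _ => 0 := by
        have h6 : ε' / 2 < |x| := by linarith [not_lt.mp hx]
        filter_upwards [(isOpen_lt continuous_const continuous_abs).mem_nhds h6] with z hz
        rw [hb0 z (le_of_lt hz), zero_mul]
      exact contDiffAt_const.congr_of_eventuallyEq h5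
  obtain ⟨k, hk, hk1⟩ := hHAD (fun x : ℝ × ℝ => b x.2 * g (0, x.2)) (hT.comp contDiff_snd)
    (fun θ => by simp only [h4, mul_zero])
  have hk' : ContDiff ℝ ∞ (fun x : ℝ => k (0, x)) := hk.comp (contDiff_const.prodMk contDiff_id)
  have hk1' : ∀ x : ℝ, b x * g (0, x) = x * k (0, x) := fun x => hk1 0 x
  refine ⟨fun x => - (b x * Odd X H 0 (b x * g (0, x))), ?_, ?_, ?_⟩
  · intro N
    obtain ⟨E, hE, -, hE2⟩ := hF N
    refine ⟨fun x => - (b x * (k (0, x) ^ N * E (0, b x * g (0, x)))), ?_, ?_⟩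
    · exact (hbs.mul ((hk'.pow N).mul (hE.comp (contDiff_const.prodMk hT)))).neg
    · intro x
      simp only [hE2]
      rw [hk1' x, mul_pow]
      ring
  · intro x hx
    have h5 : b x = 0 := hb0 x (by rw [abs_of_pos (by linarith)]; linarith)
    simp only [h5, zero_mul, neg_zero]
  · have hc : Continuous (fun t : ℝ => (X (0, t)).1) :=
      (hsm.comp (contDiff_const.prodMk contDiff_id : ContDiff ℝ ∞ (fun t : ℝ => ((0 : ℝ), t)))).continuous
    have h5 : ∀ᶠ t : ℝ in 𝓝 0, |(X (0, t)).1| < ε' / 4 := by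
      have h6 : ContinuousAt (fun t : ℝ => |(X (0, t)).1|) 0 := hc.abs.continuousAt
      apply h6.eventually (Iio_mem_nhds _)
      show |(X (0, 0)).1| < ε' / 4
      rw [hX.axis 0]
      simp only [abs_zero]
      positivity
    obtain ⟨r, hr, hr2⟩ := Metric.eventually_nhds_iff.mp h5
    refine ⟨min r δ, lt_min hr hδ, ?_⟩
    intro t ht
    have h6 : |(X (0, t)).1| < ε' / 4 := hr2 (by
      rw [dist_zero_right]
      exact lt_of_lt_of_le ht (min_le_left _ _))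
    have h7 : t = g (0, (X (0, t)).1) :=
      h3 0 t _ (lt_of_lt_of_le ht (min_le_right _ _)) (by linarith) rfl
    simp only [hb1 _ h6.le, one_mul]
    rw [← h7]

theorem slope_bounds {f : ℝ → ℝ} {a : ℝ} (ha : 0 < a) (hf : HasDerivAt f a 0) (hf0 : f 0 = 0) :
    ∃ ρ : ℝ, 0 < ρ ∧ ∀ t : ℝ, t ≠ 0 → |t| < ρ → a / 2 < t⁻¹ * f t ∧ t⁻¹ * f t < 2 * a := by
  have h1 := hasDerivAt_iff_tendsto_slope_zero.mp hf
  simp only [zero_add, hf0, sub_zero, smul_eq_mul] at h1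
  have h2 : ∀ᶠ t in 𝓝[≠] (0 : ℝ), a / 2 < t⁻¹ * f t ∧ t⁻¹ * f t < 2 * a :=
    (h1.eventually (Ioi_mem_nhds (by linarith))).and (h1.eventually (Iio_mem_nhds (by linarith)))
  rw [eventually_nhdsWithin_iff, Metric.eventually_nhds_iff] at h2
  obtain ⟨ρ, hρ, h3⟩ := h2
  refine ⟨ρ, hρ, fun t ht0 ht => h3 ?_ ht0⟩
  rw [dist_zero_right]
  exact ht

theorem Ct_trans {c : ℝ} (hc : 0 < c) : Ct (fun s => Real.smoothTransition (s / c)) := by
  refine ⟨Real.smoothTransition.contDiff.comp (contDiff_id.div_const c), c, hc, ?_, ?_⟩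
  · intro s hs
    rw [Real.smoothTransition.one_of_one_le ((one_le_div hc).mpr hs), div_self hc.ne',
      Real.smoothTransition.one]
  · intro s hs
    rw [Real.smoothTransition.zero_of_nonpos (div_nonpos_of_nonpos_of_nonneg (by linarith) hc.le),
      Real.smoothTransition.zero_of_nonpos (div_nonpos_of_nonpos_of_nonneg (by linarith) hc.le)]

theorem gx_PRE (hLOC : S_LOC) (hHAD : S_HAD) (hLOGB : S_LOGB) (hFLATEXT : S_FLATEXT)
    (hPER : S_PER) : S_PRE := by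
  intro X Z hX H hH hper hF
  obtain ⟨q, hq, hq0, r₁, hr₁, hqr⟩ := exists_flat hLOC hHAD X Z hX H hH hF
  have hsm : ContDiff ℝ ∞ (fun t : ℝ => X (0, t)) := hX.smX.comp (contDiff_const.prodMk contDiff_id)
  obtain ⟨a, ha⟩ : ∃ a, deriv (fun t => (X (0, t)).1) 0 = a := ⟨_, rfl⟩
  obtain ⟨b, hb⟩ : ∃ b, deriv (fun t => (X (0, t)).2) 0 = b := ⟨_, rfl⟩
  have ha0 : 0 < a := by rw [← ha]; exact hX.der1 0
  have hb0 : 0 < b := by rw [← hb]; exact hX.der2 0
  have hda : HasDerivAt (fun t => (X (0, t)).1) a 0 := by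
    rw [← ha]
    exact ((contDiff_infty_iff_deriv.mp hsm.fst).1 0).hasDerivAt
  have hdb : HasDerivAt (fun t => (X (0, t)).2) b 0 := by
    rw [← hb]
    exact ((contDiff_infty_iff_deriv.mp hsm.snd).1 0).hasDerivAt
  obtain ⟨ρ₁, hρ₁, hA⟩ := slope_bounds ha0 hda (by rw [hX.axis 0])
  obtain ⟨ρ₂, hρ₂, hB⟩ := slope_bounds hb0 hdb (by rw [hX.axis 0])
  obtain ⟨c, hc⟩ : ∃ c, c = (b / 2) ^ 2 / (2 * a) ^ 2 := ⟨_, rfl⟩
  have hc0 : 0 < c := by rw [hc]; positivity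
  have hpi : 1 < 2 * Real.pi - 1 := by linarith [Real.pi_gt_three]
  obtain ⟨P, hP1, hP2, hP3, hP4⟩ := hPER (FF q (fun s => Real.smoothTransition (s / c)))
    (FF_contDiff hq (Ct_trans hc0)) (by
      intro φ y h
      rcases h with h | h | h
      · by_cases hφ : 0 < φ
        · simp only [FF, if_pos hφ]
          rw [Real.smoothTransition.zero_of_nonpos, mul_zero]
          exact div_nonpos_of_nonpos_of_nonneg
            (div_nonpos_of_nonpos_of_nonneg h (by positivity)) hc0.le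
        · simp only [FF, if_neg hφ]
      · simp only [FF, if_neg (not_lt.mpr h)]
      · simp only [FF, if_pos (show 0 < φ by linarith), hq0 φ (by linarith), zero_mul])
  refine ⟨P, hP1, hP2, hP3, ?_⟩
  -- the smallness of the angle
  have h5 : ∀ᶠ t : ℝ in 𝓝 0, |(X (0, t)).1| < 1 := by
    have h6 : ContinuousAt (fun t : ℝ => |(X (0, t)).1|) 0 := hsm.fst.continuous.abs.continuousAt
    apply h6.eventually (Iio_mem_nhds _)
    show |(X (0, 0)).1| < 1
    rw [hX.axis 0]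
    simp only [abs_zero]
    exact one_pos
  obtain ⟨r₂, hr₂, hr₂'⟩ := Metric.eventually_nhds_iff.mp h5
  have key : ∀ t : ℝ, 0 < t → t < min (min r₁ r₂) (min ρ₁ ρ₂) →
      Pool.Agent.H242.GX.Odd X (fun x => H x + P x) 0 t = 0 := by
    intro t ht0 ht
    have htr₁ : t < r₁ := lt_of_lt_of_le ht ((min_le_left _ _).trans (min_le_left _ _))
    have htr₂ : t < r₂ := lt_of_lt_of_le ht ((min_le_left _ _).trans (min_le_right _ _))
    have htρ₁ : t < ρ₁ := lt_of_lt_of_le ht ((min_le_right _ _).trans (min_le_left _ _))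
    have htρ₂ : t < ρ₂ := lt_of_lt_of_le ht ((min_le_right _ _).trans (min_le_right _ _))
    have habs : |t| = t := abs_of_pos ht0
    obtain ⟨a1, a2⟩ := hA t ht0.ne' (by rw [habs]; exact htρ₁)
    obtain ⟨b1, b2⟩ := hB t ht0.ne' (by rw [habs]; exact htρ₂)
    obtain ⟨a3, a4⟩ := hA (-t) (neg_ne_zero.mpr ht0.ne') (by rw [abs_neg, habs]; exact htρ₁)
    have e1 : |(X (0, t)).1| < 1 := hr₂' (by rw [dist_zero_right, Real.norm_eq_abs, habs]; exact htr₂)
    have e2 : |(X (0, -t)).1| < 1 :=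
      hr₂' (by rw [dist_zero_right, Real.norm_eq_abs, abs_neg, habs]; exact htr₂)
    have hqt := hqr t (by rw [habs]; exact htr₁)
    obtain ⟨φ, hφ⟩ : ∃ φ, (X (0, t)).1 = φ := ⟨_, rfl⟩
    obtain ⟨r, hr⟩ : ∃ r, (X (0, t)).2 = r := ⟨_, rfl⟩
    obtain ⟨φ', hφ'⟩ : ∃ φ, (X (0, -t)).1 = φ := ⟨_, rfl⟩
    obtain ⟨r', hr'⟩ : ∃ r, (X (0, -t)).2 = r := ⟨_, rfl⟩
    simp only [hφ, hr, hφ'] at a1 a2 b1 b2 a3 a4 e1 e2 hqt
    have f1 : 0 < φ := by
      have h6 : 0 < t⁻¹ * φ := by linarith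
      have h7 : φ = t * (t⁻¹ * φ) := by field_simp
      rw [h7]
      positivity
    have f2 : φ < 2 * a * t := by
      have h7 : φ = t * (t⁻¹ * φ) := by field_simp
      rw [h7]
      nlinarith
    have f3 : b / 2 * t < r := by
      have h7 : r = t * (t⁻¹ * r) := by field_simp
      rw [h7]
      nlinarith
    have f4 : φ' < 0 := by
      have h6 : 0 < (-t)⁻¹ * φ' := by linarith
      have h7 : φ' = (-t) * ((-t)⁻¹ * φ') := by
        rw [← mul_assoc, mul_inv_cancel₀ (neg_ne_zero.mpr ht0.ne'), one_mul]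
      rw [h7]
      exact mul_neg_of_neg_of_pos (by linarith) h6
    have g1 : P (φ, r ^ 2) = q φ := by
      rw [hP4 φ (r ^ 2) f1.le (by linarith [le_abs_self φ])]
      simp only [FF, if_pos f1]
      rw [Real.smoothTransition.one_of_one_le, mul_one]
      rw [one_le_div hc0, hc, div_le_div_iff₀ (by positivity) (by positivity)]
      have h6 : b / 2 * φ ≤ r * (2 * a) := by
        calc b / 2 * φ ≤ b / 2 * (2 * a * t) := by
              apply mul_le_mul_of_nonneg_left f2.le (by positivity)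
          _ = (b / 2 * t) * (2 * a) := by ring
          _ ≤ r * (2 * a) := by
              apply mul_le_mul_of_nonneg_right f3.le (by positivity)
      rw [← mul_pow, ← mul_pow]
      exact pow_le_pow_left₀ (by positivity) h6 2
    have g2 : P (φ', r' ^ 2) = 0 := by
      rw [← hP2 φ' (r' ^ 2)]
      rw [hP4 (φ' + 2 * Real.pi) (r' ^ 2) (by linarith [neg_abs_le φ']) (by linarith)]
      have h6 : 1 ≤ φ' + 2 * Real.pi := by linarith [neg_abs_le φ']
      simp only [FF, if_pos (show 0 < φ' + 2 * Real.pi by linarith), hq0 _ h6, zero_mul]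
    have g3 : Pool.Agent.H242.GX.Odd X (fun x => H x + P x) 0 t =
        Pool.Agent.H242.GX.Odd X H 0 t + P (φ, r ^ 2) - P (φ', r' ^ 2) := by
      simp only [Pool.Agent.H242.GX.Odd, hφ, hr, hφ', hr']
      ring
    rw [g3, g1, g2, hqt]
    ring
  refine ⟨min (min r₁ r₂) (min ρ₁ ρ₂), lt_min (lt_min hr₁ hr₂) (lt_min hρ₁ hρ₂), ?_⟩
  intro t ht
  rcases lt_trichotomy t 0 with h | h | h
  · have h6 := key (-t) (by linarith) (by rw [abs_of_neg h] at ht; exact ht)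
    rw [Odd_neg] at h6
    linarith
  · rw [h]
    simp only [Pool.Agent.H242.GX.Odd, neg_zero, sub_self]
  · exact key t h (by rw [abs_of_pos h] at ht; exact ht)

end Pool.Agent.H747.GXPRE
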